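import Mathlib

/-!
Basic definitions for tilings of lines and of `ℤ³` by the punctured interval
with `k` points, one gap, and `l` points.
-/

set_option autoImplicit false

namespace Pool.Agent.H59.Tile

/-- The tile with leftmost point `t` and orientation `o` covers the integer `x`. -/
def cov (k l : ℤ) (o : Bool) (t x : ℤ) : Prop :=
  t ≤ x ∧ x ≤ t + (k + l) ∧ x ≠ t + (if o then l else k)

/-- The set of integers described by `A` is a disjoint union of copies of the tile. -/
def Tileable (k l : ℤ) (A : ℤ → Prop) : Prop :=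
  ∃ D : ℤ → Bool → Prop,
    (∀ t o x, D t o → cov k l o t x → A x) ∧
    (∀ x, A x → ∃ t o, D t o ∧ cov k l o t x) ∧
    (∀ t o t' o' x, D t o → D t' o' → cov k l o t x → cov k l o' t' x → t = t' ∧ o = o')

theorem cov_symm {k l : ℤ} {o : Bool} {t x : ℤ} (h : cov k l o t x) : cov l k (!o) t x := by
  unfold cov at *
  cases o <;> simp at * <;> omega

theorem Tileable.symm {k l : ℤ} {A : ℤ → Prop} (h : Tileable k l A) : Tileable l k A := by
  obtain ⟨D, h1, h2, h3⟩ := h
  refine ⟨fun t o => D t (!o), ?_, ?_, ?_⟩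
  · intro t o x hD hc
    exact h1 t (!o) x hD (cov_symm hc)
  · intro x hx
    obtain ⟨t, o, hD, hc⟩ := h2 x hx
    exact ⟨t, !o, by simpa using hD, cov_symm hc⟩
  · intro t o t' o' x hD hD' hc hc'
    obtain ⟨e1, e2⟩ := h3 t (!o) t' (!o') x hD hD' (cov_symm hc) (cov_symm hc')
    exact ⟨e1, by simpa using e2⟩

theorem tileable_empty {k l : ℤ} {A : ℤ → Prop} (h : ∀ x, ¬ A x) : Tileable k l A :=
  ⟨fun _ _ => False, fun _ _ _ hf _ => hf.elim, fun x hx => (h x hx).elim,
    fun _ _ _ _ _ hf _ _ _ => hf.elim⟩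

theorem Tileable.congr {k l : ℤ} {A B : ℤ → Prop} (h : Tileable k l A)
    (e : ∀ x, B x ↔ A x) : Tileable k l B := by
  have : B = A := funext fun x => propext (e x)
  rw [this]; exact h

/-- The lattice `ℤ³` can be partitioned so that the part assigned to each coordinate
direction is tileable on each line of this direction. -/
def Good (k l : ℤ) : Prop :=
  ∃ dir : ℤ → ℤ → ℤ → Fin 3,
    (∀ y z, Tileable k l (fun x => dir x y z = 0)) ∧
    (∀ x z, Tileable k l (fun y => dir x y z = 1)) ∧
    (∀ x y, Tileable k l (fun z => dir x y z = 2))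

theorem Good.symm {k l : ℤ} (h : Good k l) : Good l k := by
  obtain ⟨dir, h0, h1, h2⟩ := h
  exact ⟨dir, fun y z => (h0 y z).symm, fun x z => (h1 x z).symm, fun x y => (h2 x y).symm⟩

/-- From line-wise tileability to the tiling of `ℤ³` in the form of the frozen statement. -/
theorem assemble (k l : ℕ)
    (h : Good (k : ℤ) (l : ℤ)) :
    ∃ C : Set ((Fin 3 → ℤ) × ℤ × Fin 3),
        (∀ c ∈ C, c.2.1 = 1 ∨ c.2.1 = -1) ∧
        ∀ x : Fin 3 → ℤ, ∃! c : (Fin 3 → ℤ) × ℤ × Fin 3,
          c ∈ C ∧
          ∃ i : ℤ, ((0 ≤ i ∧ i < (k : ℤ)) ∨ ((k : ℤ) < i ∧ i ≤ (k : ℤ) + (l : ℤ))) ∧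
            x = c.1 + (c.2.1 * i) • (Pi.single c.2.2 (1 : ℤ) : Fin 3 → ℤ) := by
  obtain ⟨dir, h0, h1, h2⟩ := h
  -- tileability of each line in each direction
  have hT : ∀ (d : Fin 3) (v : Fin 3 → ℤ),
      Tileable (k : ℤ) (l : ℤ) (fun t => dir (Function.update v d t 0) (Function.update v d t 1)
        (Function.update v d t 2) = d) := by
    intro d v
    fin_cases d
    · simpa using h0 (v 1) (v 2)
    · simpa using h1 (v 0) (v 2)
    · simpa using h2 (v 0) (v 1)
  choose D hD1 hD2 hD3 using hT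
  refine ⟨{c | ∃ t o, D c.2.2 (Function.update c.1 c.2.2 0) t o ∧
      c.2.1 = (if o then -1 else 1) ∧ c.1 c.2.2 = t + (if o then (k : ℤ) + l else 0)}, ?_, ?_⟩
  · rintro c ⟨t, o, -, h, -⟩
    cases o <;> simp at h <;> simp [h]
  · intro x
    set d := dir (x 0) (x 1) (x 2) with hd
    -- key facts
    have key : ∀ c : (Fin 3 → ℤ) × ℤ × Fin 3, ∀ t o,
        D c.2.2 (Function.update c.1 c.2.2 0) t o → c.2.1 = (if o then -1 else 1) →
        c.1 c.2.2 = t + (if o then (k : ℤ) + l else 0) →
        (∃ i : ℤ, ((0 ≤ i ∧ i < (k : ℤ)) ∨ ((k : ℤ) < i ∧ i ≤ (k : ℤ) + (l : ℤ))) ∧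
            x = c.1 + (c.2.1 * i) • (Pi.single c.2.2 (1 : ℤ) : Fin 3 → ℤ)) →
        Function.update c.1 c.2.2 0 = Function.update x c.2.2 0 ∧ cov k l o t (x c.2.2) := by
      rintro ⟨p, s, e⟩ t o hD hs hp ⟨i, hi, hx⟩
      simp only at hD hs hp hi hx ⊢
      have hxe : x e = p e + s * i := by
        rw [hx]; simp
      refine ⟨?_, ?_⟩
      · funext j
        by_cases hj : j = e
        · subst hj; simp
        · have : x j = p j := by rw [hx]; simp [Pi.single_apply, hj]
          simp [Function.update_of_ne hj, this]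
      · unfold cov
        rw [hxe, hp, hs]
        cases o
        · simp; omega
        · simp; omega
    -- existence
    obtain ⟨t, o, htD, htc⟩ := hD2 d (Function.update x d 0) (x d) (by
      simp [← hd])
    refine ⟨(Function.update x d (t + (if o then (k : ℤ) + l else 0)),
        (if o then -1 else 1), d), ⟨⟨t, o, ?_, rfl, ?_⟩, ?_⟩, ?_⟩
    · simpa using htD
    · simp
    · refine ⟨if o then t + (k + l) - x d else x d - t, ?_, ?_⟩
      · unfold cov at htc
        cases o <;> simp at htc ⊢ <;> omega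
      · funext j
        by_cases hj : j = d
        · subst hj
          cases o <;> simp
        · cases o <;> simp [Function.update_of_ne hj, Pi.single_apply, hj]
    · rintro ⟨p, s, e⟩ ⟨⟨t', o', hD', hs', hp'⟩, hi'⟩
      obtain ⟨hu, hc'⟩ := key ⟨p, s, e⟩ t' o' hD' hs' hp' hi'
      simp only at hD' hs' hp' hu hc'
      rw [hu] at hD'
      have hAe := hD1 e (Function.update x e 0) t' o' (x e) hD' hc'
      simp only [Function.update_idem, Function.update_eq_self] at hAe
      have hed : e = d := by rw [hd]; exact hAe.symm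
      rw [hed] at hD' hp' hu hc'
      rw [hed]
      obtain ⟨e1, e2⟩ := hD3 _ _ t' o' t o (x d) hD' htD hc' htc
      subst e1 e2
      have hpe : p = Function.update x d (t' + (if o' then (k : ℤ) + l else 0)) := by
        funext j
        by_cases hj : j = d
        · rw [hj, hp']; simp
        · have := congrFun hu j
          simp [Function.update_of_ne hj] at this
          simp [Function.update_of_ne hj, this]
      rw [hpe, hs']

end Pool.Agent.H59.Tile
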