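import Pool.Agent.H59.Tile.LineX

/-!
Integers in alternate blocks of length `B`, and their enumeration.
-/

set_option autoImplicit false

namespace Pool.Agent.H59.Tile

/-- The integer `i` lies in an even block of length `B`. -/
def inI (B i : ℤ) : Prop := i % (2 * B) < B

/-- The rank of `i` among the integers in even blocks. -/
def rk (B i : ℤ) : ℤ := B * (i / (2 * B)) + i % (2 * B)

theorem block_dec {B : ℤ} (hB : 0 < B) (i : ℤ) :
    ∃ a r : ℤ, 0 ≤ r ∧ r < 2 * B ∧ i = 2 * B * a + r ∧ (inI B i ↔ r < B) ∧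
      rk B i = B * a + r :=
  ⟨i / (2 * B), i % (2 * B), Int.emod_nonneg _ (by omega), Int.emod_lt_of_pos _ (by omega),
    (Int.mul_ediv_add_emod i (2 * B)).symm, Iff.rfl, rfl⟩

theorem block_of {B a r : ℤ} (hr0 : 0 ≤ r) (hr : r < 2 * B) :
    (inI B (2 * B * a + r) ↔ r < B) ∧ rk B (2 * B * a + r) = B * a + r := by
  have e1 : (2 * B * a + r) / (2 * B) = a := by
    rw [add_comm, Int.add_mul_ediv_left _ _ (by omega), Int.ediv_eq_zero_of_lt hr0 hr]; simp
  have e2 : (2 * B * a + r) % (2 * B) = r := by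
    rw [add_comm, Int.add_mul_emod_self_left, Int.emod_eq_of_lt hr0 hr]
  unfold inI rk
  rw [e1, e2]
  exact ⟨Iff.rfl, rfl⟩

theorem block_of' {B a r i : ℤ} (hi : i = 2 * B * a + r) (hr0 : 0 ≤ r) (hr : r < 2 * B) :
    (inI B i ↔ r < B) ∧ rk B i = B * a + r := by
  rw [hi]; exact block_of hr0 hr

theorem inI_shift {B c i : ℤ} (hB : 0 < B) :
    inI B (i + B * (2 * c + 1)) ↔ ¬ inI B i := by
  obtain ⟨a, r, hr0, hr, hi, h1, h2⟩ := block_dec hB i
  rw [h1]
  by_cases h : r < B
  · have := block_of' (B := B) (a := a + c) (r := r + B) (i := i + B * (2 * c + 1))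
      (by rw [hi]; ring) (by omega) (by omega)
    rw [this.1]; omega
  · have := block_of' (B := B) (a := a + c + 1) (r := r - B) (i := i + B * (2 * c + 1))
      (by rw [hi]; ring) (by omega) (by omega)
    rw [this.1]; omega

theorem inI_shift' {B c i : ℤ} (hB : 0 < B) :
    inI B (i - B * (2 * c + 1)) ↔ ¬ inI B i := by
  have := inI_shift (B := B) (c := -c - 1) (i := i) hB
  rw [← this]
  have e : i - B * (2 * c + 1) = i + B * (2 * (-c - 1) + 1) := by ring
  rw [e]

theorem inI_period {B e i : ℤ} (hB : 0 < B) :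
    (inI B (i + 2 * (B * e)) ↔ inI B i) ∧ rk B (i + 2 * (B * e)) = rk B i + B * e := by
  obtain ⟨a, r, hr0, hr, hi, h1, h2⟩ := block_dec hB i
  have := block_of' (B := B) (a := a + e) (r := r) (i := i + 2 * (B * e))
      (by rw [hi]; ring) (by omega) (by omega)
  rw [this.1, this.2, h1, h2]
  exact ⟨Iff.rfl, by ring⟩

theorem inI_surj {B : ℤ} (hB : 0 < B) (n : ℤ) : ∃ j, inI B j ∧ rk B j = n := by
  have b1 := Int.emod_nonneg n (by omega : B ≠ 0)
  have b2 := Int.emod_lt_of_pos n hB
  have := block_of (B := B) (a := n / B) (r := n % B) b1 (by omega)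
  refine ⟨2 * B * (n / B) + n % B, this.1.2 b2, ?_⟩
  rw [this.2]; exact Int.mul_ediv_add_emod n B

theorem inI_inj {B e i j : ℤ} (hB : 0 < B) (hi : inI B i) (hj : inI B j)
    (h : B * e ∣ rk B i - rk B j) : 2 * (B * e) ∣ i - j := by
  obtain ⟨a, r, hr0, hr, hi', h1, h2⟩ := block_dec hB i
  obtain ⟨a', r', hr0', hr', hj', h1', h2'⟩ := block_dec hB j
  rw [h1] at hi
  rw [h1'] at hj
  rw [h2, h2'] at h
  have hB' : B ∣ r - r' := by
    have h3 : B ∣ (B * a + r - (B * a' + r')) := dvd_trans (dvd_mul_right B e) h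
    have h4 : B ∣ B * (a - a') := dvd_mul_right _ _
    have h5 := dvd_sub h3 h4
    have e5 : B * a + r - (B * a' + r') - B * (a - a') = r - r' := by ring
    rwa [e5] at h5
  have h6 : r - r' = 0 := eq_zero_of_dvd_of_lt hB' (by omega) (by omega)
  have h7 : B * a + r - (B * a' + r') = B * (a - a') := by
    have : r = r' := by omega
    rw [this]; ring
  rw [h7] at h
  have h8 : i - j = 2 * (B * (a - a')) := by
    rw [hi', hj']
    have : r = r' := by omega
    rw [this]; ring
  rw [h8]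
  exact mul_dvd_mul_left 2 h

end Pool.Agent.H59.Tile
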