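import Pool.Agent.H59.Tile.Count

/-!
The two families of columns.
-/

set_option autoImplicit false

namespace Pool.Agent.H59.Tile

theorem colZ_A (k l p : ℤ) (hk : 0 < k) (hkl : k < l) (hp : 0 ≤ p) (hpl : p ≤ l) (q : ℕ)
    (hq : (q : ℤ) = 2 * p + 2) : ColZ k l q := by
  classical
  set m := k + l with hm
  have hm0 : 0 < m := by omega
  have hz : ∀ a b : ℤ, ((a : ZMod q) = (b : ZMod q)) ↔ (q : ℤ) ∣ b - a := by
    intro a b
    exact ZMod.intCast_eq_intCast_iff_dvd_sub a b q
  have hdec : ∀ x : ℤ, ∃ y r : ℤ, 0 ≤ r ∧ r < m ∧ x = m * y + r ∧ x / m = y ∧ x % m = r := by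
    intro x
    refine ⟨x / m, x % m, Int.emod_nonneg _ (by omega), Int.emod_lt_of_pos _ hm0, ?_, rfl, rfl⟩
    exact (Int.mul_ediv_add_emod x m).symm
  -- bound for the quotient difference
  have hmul : ∀ a b c : ℤ, m * a - m * b < m * c → a - b < c := by
    intro a b c h
    rw [← mul_sub] at h
    exact lt_of_mul_lt_mul_left h (by omega)
  have hsame : ∀ t t' : ℤ, t % m < p → t' % m < p → (q : ℤ) ∣ (t' / m - t' % m) - (t / m - t % m) →
      |t - t'| ≤ m → t = t' := by
    intro t t' h1 h2 h3 h4
    obtain ⟨a, i, hi0, hi, ht, e1, e2⟩ := hdec t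
    obtain ⟨b, j, hj0, hj, ht', e1', e2'⟩ := hdec t'
    rw [e1, e2, e1', e2'] at h3
    rw [e2] at h1
    rw [e2'] at h2
    rw [abs_le] at h4
    have h5 := hmul a b 2 (by omega)
    have h6 := hmul b a 2 (by omega)
    have h7 : a = b ∨ a = b + 1 ∨ b = a + 1 := by omega
    rcases h7 with h | h | h
    · subst h
      have := eq_zero_of_dvd_of_lt h3 (by omega) (by omega)
      omega
    · subst h
      have := eq_zero_of_dvd_of_lt h3 (by rw [mul_add] at ht; omega) (by rw [mul_add] at ht; omega)
      rw [mul_add] at ht
      omega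
    · subst h
      have := eq_zero_of_dvd_of_lt h3 (by rw [mul_add] at ht'; omega)
        (by rw [mul_add] at ht'; omega)
      rw [mul_add] at ht'
      omega
  have hPper : ∀ u : ℤ, ((u + m) % m < p ↔ u % m < p) := by
    intro u
    rw [Int.add_emod_right]
  refine colZ_of k l q (by omega) (fun u => u % m < p) (fun u => (u - k) % m < p)
    (fun u => ((u / m - u % m - (p + 1) : ℤ) : ZMod q))
    (fun u => (((u - k) / m - (u - k) % m : ℤ) : ZMod q)) ?_ ?_ ?_ ?_
  · intro t t' h1 h2 h3 h4
    simp only [hz] at h3
    refine hsame t t' h1 h2 ?_ h4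
    have e : t' / m - t' % m - (p + 1) - (t / m - t % m - (p + 1)) =
      (t' / m - t' % m) - (t / m - t % m) := by ring
    rwa [e] at h3
  · intro t t' h1 h2 h3 h4
    simp only [hz] at h3
    have := hsame (t - k) (t' - k) h1 h2 h3 (by
      rw [show t - k - (t' - k) = t - t' by ring]; exact h4)
    omega
  · intro t t' h1 h2 h3
    simp only [hz] at h3
    by_contra hcon
    rw [not_lt, abs_le] at hcon
    obtain ⟨a, i, hi0, hi, ht, e1, e2⟩ := hdec t
    obtain ⟨b, j, hj0, hj, ht', e1', e2'⟩ := hdec (t' - k)
    rw [e1, e2, e1', e2'] at h3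
    simp only [e2] at h1
    simp only [e2'] at h2
    have h5 := hmul b a 2 (by omega)
    have h6 := hmul a b 3 (by omega)
    have h7 : b = a ∨ b = a + 1 ∨ a = b + 1 ∨ a = b + 2 := by omega
    rcases h7 with h | h | h | h
    · subst h
      have := eq_zero_of_dvd_of_lt h3 (by omega) (by omega)
      omega
    · subst h
      have := eq_zero_of_dvd_of_lt h3 (by omega) (by omega)
      omega
    · subst h
      have := eq_zero_of_dvd_of_lt h3 (by omega) (by omega)
      omega
    · subst h
      rw [mul_add] at ht
      omega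
  · intro z
    right
    have c0 := card_cnt0 (P := fun u => u % m < p) hk (by omega : 0 < l) (by
      rw [← hm]; exact hPper) z
    have c1 := card_cnt0 (k := l) (l := k) (P := fun u => (u - k) % m < p) (by omega) hk (by
      intro u
      have := hPper (u - k)
      rw [show u + (l + k) - k = u - k + m by rw [hm]; ring]
      exact this) z
    have w0 := win_lt (p := p) hm0 hp (by omega)
    have w1 : win (fun u => (u - k) % m < p) (l + k) 0 = win (fun u => u % m < p) m 0 := by
      have hw := win_const (P := fun u => (u - k) % m < p) (m := l + k) (by omega) (by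
        intro u
        have := hPper (u - k)
        rw [show u + (l + k) - k = u - k + m by rw [hm]; ring]
        exact this) k
      rw [← hw]
      unfold win
      apply Finset.card_bij (fun u _ => u - k)
      · intro u hu
        simp only [Finset.mem_filter, Finset.mem_Ico] at hu ⊢
        exact ⟨by omega, hu.2⟩
      · intro u _ v _ h
        omega
      · intro v hv
        simp only [Finset.mem_filter, Finset.mem_Ico] at hv
        refine ⟨v + k, ?_, by ring⟩
        simp only [Finset.mem_filter, Finset.mem_Ico]
        refine ⟨by omega, ?_⟩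
        rw [show v + k - k = v by ring]
        exact hv.2
    have e1 : (z - l - k) % m < p ↔ z % m < p := by
      have := hPper (z - l - k)
      rw [show z - l - k + m = z by rw [hm]; ring] at this
      exact this.symm
    rw [w1] at c1
    rw [← hm] at c0
    have : (q : ℤ) = 2 * (win (fun u => u % m < p) m 0 : ℤ) + 2 := by rw [w0, hq]
    by_cases h1 : z % m < p
    · have h1' := e1.2 h1
      by_cases h2 : (z - k) % m < p
      · simp only [h1, h1', h2, if_true] at c0 c1
        omega
      · simp only [h1, h1', h2, if_true, if_false] at c0 c1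
        omega
    · have h1' : ¬ (z - l - k) % m < p := fun h => h1 (e1.1 h)
      by_cases h2 : (z - k) % m < p
      · simp only [h1, h1', h2, if_true, if_false] at c0 c1
        omega
      · simp only [h1, h1', h2, if_false] at c0 c1
        omega

theorem colZ_B (k l A c e : ℤ) (hA : 0 < A) (he : 0 < e) (hk : 0 < k) (hl : 0 < l)
    (hkA : k = A * (2 * c + 1)) (hm : k + l = 2 * (A * e)) (q : ℕ)
    (hq : (q : ℤ) = A * e + 1) : ColZ k l q := by
  classical
  have hz : ∀ a b : ℤ, ((a : ZMod q) = (b : ZMod q)) ↔ (q : ℤ) ∣ b - a := by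
    intro a b
    exact ZMod.intCast_eq_intCast_iff_dvd_sub a b q
  have hAe : 0 < A * e := mul_pos hA he
  have hbig : ∀ t t', inI A t → inI A t' → A * e + 1 ≤ rk A t - rk A t' →
      2 * (A * e) + 1 ≤ t - t' := by
    intro t t' h1 h2 h3
    obtain ⟨a, r, hr0, hr, ht, i1, i2⟩ := block_dec hA t
    obtain ⟨a', r', hr0', hr', ht', i1', i2'⟩ := block_dec hA t'
    rw [i1] at h1
    rw [i1'] at h2
    rw [i2, i2'] at h3
    have h4 : A * (e - 1) < A * (a - a') := by
      have e1 : A * (e - 1) = A * e - A := by ring
      have e2 : A * (a - a') = A * a - A * a' := by ring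
      rw [e1, e2]; omega
    have h5 : e - 1 < a - a' := lt_of_mul_lt_mul_left h4 hA.le
    have h6 : A * e ≤ A * (a - a') := mul_le_mul_of_nonneg_left (by omega) hA.le
    have e3 : t - t' = (A * a + r - (A * a' + r')) + A * (a - a') := by
      rw [ht, ht']; ring
    rw [e3]
    omega
  have hper : ∀ u, inI A (u + (k + l)) ↔ inI A u := fun u => by
    rw [hm]; exact (inI_period hA).1
  refine colZ_of k l q (by omega) (inI A) (fun _ => False)
    (fun u => ((rk A u : ℤ) : ZMod q)) (fun _ => 0) ?_ ?_ ?_ ?_
  · intro t t' h1 h2 h3 h4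
    simp only [hz] at h3
    rw [abs_le] at h4
    have hd : (q : ℤ) ∣ rk A t' - rk A t := h3
    by_cases h5 : A * e + 1 ≤ rk A t - rk A t'
    · have := hbig t t' h1 h2 h5
      omega
    · by_cases h6 : A * e + 1 ≤ rk A t' - rk A t
      · have := hbig t' t h2 h1 h6
        omega
      · have h7 := eq_zero_of_dvd_of_lt hd (by omega) (by omega)
        -- equal ranks give equal elements
        have h8 : ∀ E : ℤ, 2 * (A * E) ∣ t - t' := by
          intro E
          apply inI_inj hA h1 h2
          rw [show rk A t - rk A t' = 0 by omega]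
          exact dvd_zero _
        have h9 := h8 (e + 1)
        have e9 : A * (e + 1) = A * e + A := by ring
        rw [e9] at h9
        have := eq_zero_of_dvd_of_lt h9 (by omega) (by omega)
        omega
  · intro t t' h1
    exact h1.elim
  · intro t t' _ h1
    exact h1.elim
  · intro z
    have c0 := card_cnt0 (P := inI A) hk hl hper z
    have w0 := win_inI hA he
    rw [← hm] at w0
    have c1 : (cnt0 l k (fun _ => False) z).card = 0 := by
      rw [Finset.card_eq_zero]
      ext u
      rw [mem_cnt0]
      simp
    have hs : inI A (z - k) ↔ ¬ inI A z := by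
      rw [hkA]; exact inI_shift' hA
    rw [c1]
    by_cases h : inI A z
    · left
      rw [if_neg (by rw [hs]; simpa using h), if_pos h] at c0
      omega
    · right
      rw [if_pos (hs.2 h), if_neg h] at c0
      omega

end Pool.Agent.H59.Tile
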