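import Pool.Agent.H59.Tile.Basic

/-!
Combination of one-dimensional data in the three coordinate directions.
-/

set_option autoImplicit false

namespace Pool.Agent.H59.Tile

/-- A colouring with `q` colours such that the complement of every colour class is tileable. -/
def ColX (k l : ℤ) (q : ℕ) : Prop :=
  ∃ ρ : ℤ → ZMod q, ∀ γ : ZMod q, Tileable k l (fun x => ρ x ≠ γ)

/-- `q` columns, each tileable outside a set, such that every row misses either no column or
exactly two columns. -/
def ColZ (k l : ℤ) (q : ℕ) : Prop :=
  ∃ U : ℤ → ZMod q → Prop, (∀ γ : ZMod q, Tileable k l (fun z => ¬ U z γ)) ∧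
    ∀ z, (∀ γ, ¬ U z γ) ∨ ∃ a b : ZMod q, a ≠ b ∧ ∀ γ, U z γ ↔ (γ = a ∨ γ = b)

theorem good_of (k l : ℤ) (q : ℕ) (hX : ColX k l q)
    (hY : ∃ τ : ℤ → ZMod 3, ∀ s : ZMod 3, Tileable k l (fun y => τ y ≠ s))
    (hZ : ColZ k l q) : Good k l := by
  classical
  obtain ⟨ρ, hρ⟩ := hX
  obtain ⟨τ, hτ⟩ := hY
  obtain ⟨U, hU, hUz⟩ := hZ
  have hch : ∀ z, ∃ a b : ZMod q, (∀ γ, ¬ U z γ) ∨ (a ≠ b ∧ ∀ γ, U z γ ↔ (γ = a ∨ γ = b)) := by
    intro z
    rcases hUz z with h | ⟨a, b, h⟩
    · exact ⟨0, 0, Or.inl h⟩
    · exact ⟨a, b, Or.inr h⟩
  choose a b hab using hch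
  let dir : ℤ → ℤ → ℤ → Fin 3 := fun x y z =>
    if τ y = 0 then (if U z (ρ x) then 1 else 2)
    else if (∀ γ, ¬ U z γ) then (if ρ x = 0 then 1 else 0)
    else if τ y = 1 then (if ρ x = b z then 1 else 0)
    else (if ρ x = a z then 1 else 0)
  refine ⟨dir, ?_, ?_, ?_⟩
  · intro y z
    by_cases h0 : τ y = 0
    · apply tileable_empty
      intro x
      simp only [dir, h0, if_true]
      split_ifs <;> decide
    · by_cases hα : ∀ γ, ¬ U z γ
      · refine (hρ 0).congr (fun x => ?_)
        simp only [dir, if_neg h0, if_pos hα]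
        split_ifs with h <;> simp [h]
      · by_cases h1 : τ y = 1
        · refine (hρ (b z)).congr (fun x => ?_)
          simp only [dir, if_neg h0, if_neg hα, if_pos h1]
          split_ifs with h <;> simp [h]
        · refine (hρ (a z)).congr (fun x => ?_)
          simp only [dir, if_neg h0, if_neg hα, if_neg h1]
          split_ifs with h <;> simp [h]
  · intro x z
    by_cases hα : ∀ γ, ¬ U z γ
    · by_cases hx : ρ x = 0
      · refine (hτ 0).congr (fun y => ?_)
        have hx' := hα (ρ x)
        simp only [dir, if_neg hx', if_pos hα, if_pos hx]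
        split_ifs with h <;> simp [h]
      · apply tileable_empty
        intro y
        have hx' := hα (ρ x)
        simp only [dir, if_neg hx', if_pos hα, if_neg hx]
        split_ifs with h <;> simp
    · rcases hab z with h | ⟨hne, hiff⟩
      · exact (hα h).elim
      · by_cases ha : ρ x = a z
        · have hb : ρ x ≠ b z := by rw [ha]; exact hne
          have hx' : U z (ρ x) := (hiff _).2 (Or.inl ha)
          refine (hτ 1).congr (fun y => ?_)
          simp only [dir, if_pos hx', if_neg hα, if_neg hb, if_pos ha]
          have h3 : ∀ t : ZMod 3, ((if t = 0 then (1 : Fin 3) else if t = 1 then 0 else 1) = 1)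
                ↔ t ≠ 1 := by decide
          exact h3 (τ y)
        · by_cases hb : ρ x = b z
          · have hx' : U z (ρ x) := (hiff _).2 (Or.inr hb)
            refine (hτ 2).congr (fun y => ?_)
            simp only [dir, if_pos hx', if_neg hα, if_pos hb, if_neg ha]
            have h3 : ∀ t : ZMod 3, ((if t = 0 then (1 : Fin 3) else if t = 1 then 1 else 0) = 1)
                ↔ t ≠ 2 := by decide
            exact h3 (τ y)
          · have hx' : ¬ U z (ρ x) := by
              rw [hiff]; rintro (h | h)
              · exact ha h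
              · exact hb h
            apply tileable_empty
            intro y
            simp only [dir, if_neg hx', if_neg hα, if_neg hb, if_neg ha]
            split_ifs with h h' <;> simp
  · intro x y
    by_cases h0 : τ y = 0
    · refine (hU (ρ x)).congr (fun z => ?_)
      simp only [dir, if_pos h0]
      split_ifs with h <;> simp [h]
    · apply tileable_empty
      intro z
      simp only [dir, if_neg h0]
      split_ifs <;> simp

end Pool.Agent.H59.Tile
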