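import Pool.Agent.H59.Tile.LineZ

/-!
Counting the elements of a periodic set in windows.
-/

set_option autoImplicit false

namespace Pool.Agent.H59.Tile

open Classical in
/-- Number of elements of `P` in the window of length `m` starting at `z`. -/
noncomputable def win (P : ℤ → Prop) (m z : ℤ) : ℕ := ((Finset.Ico z (z + m)).filter P).card

theorem win_succ {P : ℤ → Prop} {m : ℤ} (hm : 0 < m) (hP : ∀ u, P (u + m) ↔ P u) (z : ℤ) :
    win P m (z + 1) = win P m z := by
  classical
  unfold win
  have e1 : insert z ((Finset.Ico (z + 1) (z + 1 + m))) = Finset.Icc z (z + m) := by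
    ext u; simp only [Finset.mem_insert, Finset.mem_Ico, Finset.mem_Icc]; omega
  have e2 : insert (z + m) ((Finset.Ico z (z + m))) = Finset.Icc z (z + m) := by
    ext u; simp only [Finset.mem_insert, Finset.mem_Ico, Finset.mem_Icc]; omega
  have e3 := congrArg (fun s => (s.filter P).card) (e1.trans e2.symm)
  simp only [Finset.filter_insert] at e3
  by_cases h : P z
  · rw [if_pos h, if_pos ((hP z).2 h), Finset.card_insert_of_notMem (by simp),
      Finset.card_insert_of_notMem (by simp)] at e3
    convert Nat.succ.inj e3 using 2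
  · rw [if_neg h, if_neg (fun h' => h ((hP z).1 h'))] at e3
    convert e3 using 2

theorem win_const {P : ℤ → Prop} {m : ℤ} (hm : 0 < m) (hP : ∀ u, P (u + m) ↔ P u) (z : ℤ) :
    win P m z = win P m 0 := by
  induction z using Int.induction_on with
  | zero => rfl
  | succ i ih => rw [win_succ hm hP, ih]
  | pred i ih =>
    rw [← ih]
    have := win_succ hm hP (-(i : ℤ) - 1)
    rw [← this]
    congr 1
    ring

open Classical in
theorem card_cnt0 {k l : ℤ} {P : ℤ → Prop} (hk : 0 < k) (hl : 0 < l)
    (hP : ∀ u, P (u + (k + l)) ↔ P u) (z : ℤ) :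
    (cnt0 k l P z).card + (if P (z - k) then 1 else 0) =
      win P (k + l) 0 + (if P z then 1 else 0) := by
  have hw : win P (k + l) (z - (k + l)) = win P (k + l) 0 := win_const (by omega) hP _
  have e1 : (Finset.Icc (z - (k + l)) z).filter P =
      if P z then insert z ((Finset.Ico (z - (k + l)) (z - (k + l) + (k + l))).filter P)
        else ((Finset.Ico (z - (k + l)) (z - (k + l) + (k + l))).filter P) := by
    have : Finset.Icc (z - (k + l)) z = insert z
        (Finset.Ico (z - (k + l)) (z - (k + l) + (k + l))) := by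
      ext u; simp only [Finset.mem_insert, Finset.mem_Ico, Finset.mem_Icc]; omega
    rw [this, Finset.filter_insert]
  have c1 : ((Finset.Icc (z - (k + l)) z).filter P).card =
      win P (k + l) 0 + (if P z then 1 else 0) := by
    rw [e1, ← hw]
    unfold win
    split_ifs with h
    · rw [Finset.card_insert_of_notMem (by simp)]
    · simp
  rw [← c1]
  have e2 : cnt0 k l P z = ((Finset.Icc (z - (k + l)) z).filter P).erase (z - k) := by
    ext u
    rw [mem_cnt0]
    simp only [Finset.mem_erase, Finset.mem_filter, Finset.mem_Icc]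
    tauto
  rw [e2]
  split_ifs with h
  · apply Finset.card_erase_add_one
    simp only [Finset.mem_filter, Finset.mem_Icc]
    exact ⟨by omega, h⟩
  · rw [Finset.erase_eq_of_notMem]
    · simp
    · simp only [Finset.mem_filter, Finset.mem_Icc]
      tauto

theorem win_lt {m p : ℤ} (hm : 0 < m) (hp : 0 ≤ p) (hpm : p ≤ m) :
    (win (fun u => u % m < p) m 0 : ℤ) = p := by
  classical
  have : (Finset.Ico (0 : ℤ) (0 + m)).filter (fun u => u % m < p) = Finset.Ico 0 p := by
    ext u
    simp only [Finset.mem_filter, Finset.mem_Ico]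
    constructor
    · rintro ⟨⟨h1, h2⟩, h3⟩
      rw [Int.emod_eq_of_lt h1 (by omega)] at h3
      exact ⟨h1, h3⟩
    · rintro ⟨h1, h2⟩
      refine ⟨⟨h1, by omega⟩, ?_⟩
      rw [Int.emod_eq_of_lt h1 (by omega)]
      exact h2
  have h2 := congrArg Finset.card this
  rw [Int.card_Ico] at h2
  have h3 : ((p - 0).toNat : ℤ) = p := by
    rw [Int.toNat_of_nonneg (by omega)]; ring
  have h5 : win (fun u => u % m < p) m 0 = (p - 0).toNat := by
    rw [← h2]
    unfold win
    congr
  rw [h5, h3]

theorem win_inI {A e : ℤ} (hA : 0 < A) (he : 0 < e) :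
    (win (inI A) (2 * (A * e)) 0 : ℤ) = A * e := by
  classical
  have hAe : 0 < A * e := mul_pos hA he
  have hper : ∀ u, inI A (u + 2 * (A * e)) ↔ inI A u := fun u => (inI_period hA).1
  have h1 := win_const (P := inI A) (m := 2 * (A * e)) (by omega) hper A
  have hsh : ∀ u, inI A (u + A) ↔ ¬ inI A u := by
    intro u
    have := inI_shift (B := A) (c := 0) (i := u) hA
    simpa using this
  have h2 : win (inI A) (2 * (A * e)) A =
      ((Finset.Ico (0 : ℤ) (0 + 2 * (A * e))).filter (fun u => ¬ inI A u)).card := by
    unfold win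
    symm
    apply Finset.card_bij (fun u _ => u + A)
    · intro u hu
      simp only [Finset.mem_filter, Finset.mem_Ico] at hu ⊢
      exact ⟨by omega, (hsh u).2 hu.2⟩
    · intro u _ v _ h
      omega
    · intro v hv
      simp only [Finset.mem_filter, Finset.mem_Ico] at hv
      refine ⟨v - A, ?_, by ring⟩
      simp only [Finset.mem_filter, Finset.mem_Ico]
      refine ⟨by omega, ?_⟩
      rw [← hsh]
      simpa using hv.2
  have h3 : ((Finset.Ico (0 : ℤ) (0 + 2 * (A * e))).filter (fun u => inI A u)).card +
      ((Finset.Ico (0 : ℤ) (0 + 2 * (A * e))).filter (fun u => ¬ inI A u)).card =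
      (Finset.Ico (0 : ℤ) (0 + 2 * (A * e))).card :=
    Finset.card_filter_add_card_filter_not _
  rw [← h2, h1, Int.card_Ico] at h3
  have h4 : win (inI A) (2 * (A * e)) 0 + win (inI A) (2 * (A * e)) 0 =
      (0 + 2 * (A * e) - 0).toNat := by
    rw [← h3]
    congr 1
  omega

end Pool.Agent.H59.Tile
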