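import Pool.Agent.H59.Tile.Block

/-!
Colourings of the integers by `(k + l) / 2 + 1` colours with tileable complements of colour
classes, for odd `k` and `l`.
-/

set_option autoImplicit false

namespace Pool.Agent.H59.Tile

theorem colX_odd (k l κ lam B c e : ℤ) (hB : 0 < B) (hk : k = 2 * κ - 1) (hl : l = 2 * lam - 1)
    (hκ0 : 0 < κ) (hl0 : 0 < lam) (hκ : κ = B * (2 * c + 1)) (he : κ + lam = B * e) (q : ℕ)
    (hq : (q : ℤ) = κ + lam) : ColX k l q := by
  classical
  set J : ℤ → ℤ := fun x => if inI B (x / 2) then x / 2 else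
    if x % 2 = 1 then x / 2 - κ else x / 2 + κ with hJ
  refine ⟨fun x => ((rk B (J x) : ℤ) : ZMod q), fun γ => ?_⟩
  haveI : NeZero q := ⟨by rintro rfl; simp at hq; omega⟩
  obtain ⟨g0, rfl⟩ : ∃ g0 : ℤ, (g0 : ZMod q) = γ := ⟨γ.val, by simp⟩
  have hz : ∀ a b : ℤ, ((a : ZMod q) = (b : ZMod q)) ↔ (q : ℤ) ∣ b - a := by
    intro a b
    exact ZMod.intCast_eq_intCast_iff_dvd_sub a b q
  have hqe : (q : ℤ) = B * e := by rw [hq, he]
  have sh1 : ∀ i, inI B (i + κ) ↔ ¬ inI B i := by
    intro i; rw [hκ]; exact inI_shift hB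
  have sh2 : ∀ i, inI B (i - κ) ↔ ¬ inI B i := by
    intro i; rw [hκ]; exact inI_shift' hB
  have hinj : ∀ i j, inI B i → inI B j → (q : ℤ) ∣ rk B i - rk B j → 2 * (q : ℤ) ∣ i - j := by
    intro i j hi hj h
    rw [hqe] at h ⊢
    exact inI_inj hB hi hj h
  have hper : ∀ i s : ℤ, (inI B (i + 2 * (q * s)) ↔ inI B i) ∧
      rk B (i + 2 * (q * s)) = rk B i + q * s := by
    intro i s
    have := inI_period (B := B) (e := e * s) (i := i) hB
    rw [hqe, mul_assoc B e s]
    exact this
  have hJI : ∀ x, inI B (J x) := by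
    intro x
    simp only [hJ]
    split_ifs with h1 h2
    · exact h1
    · exact (sh2 _).2 h1
    · exact (sh1 _).2 h1
  refine ⟨fun t o => ∃ j : ℤ, inI B j ∧ (q : ℤ) ∣ g0 - rk B j ∧
      t = if o then 2 * j + 2 * q + 1 else 2 * j + 2, ?_, ?_, ?_⟩
  · rintro t o x ⟨j, hj, hg, rfl⟩ hcov
    simp only [ne_eq, hz]
    intro hdvd
    have hd : (q : ℤ) ∣ rk B (J x) - rk B j := by
      have := dvd_sub hg hdvd
      have e : g0 - rk B j - (g0 - rk B (J x)) = rk B (J x) - rk B j := by ring
      rwa [e] at this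
    obtain ⟨s, hs⟩ := hinj _ _ (hJI x) hj hd
    unfold cov at hcov
    have hxd : x = 2 * (x / 2) + x % 2 := by omega
    have hx2 : x % 2 = 0 ∨ x % 2 = 1 := by omega
    have hJc : J x = x / 2 ∨ (x % 2 = 1 ∧ J x = x / 2 - κ) ∨ (x % 2 = 0 ∧ J x = x / 2 + κ) := by
      simp only [hJ]
      split_ifs with h1 h2
      · left; rfl
      · right; left; exact ⟨h2, rfl⟩
      · right; right; exact ⟨by omega, rfl⟩
    have hrange : 2 * j + 2 ≤ x ∧ x ≤ 2 * j + 4 * q - 1 := by
      cases o <;> simp at hcov <;> omega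
    have hs' : s = 0 ∨ s = 1 := by
      have hq0 : (0 : ℤ) < q := by omega
      have h1 : 2 * (q : ℤ) * s < 2 * q * 2 := by omega
      have h2 : 2 * (q : ℤ) * (-1) < 2 * q * s := by omega
      have h3 : s < 2 := lt_of_mul_lt_mul_left h1 (by omega)
      have h4 : -1 < s := lt_of_mul_lt_mul_left h2 (by omega)
      omega
    rcases hs' with rfl | rfl
    · rcases hJc with h | ⟨h, h'⟩ | ⟨h, h'⟩
      · omega
      · cases o <;> simp at hcov <;> omega
      · omega
    · rcases hJc with h | ⟨h, h'⟩ | ⟨h, h'⟩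
      · omega
      · omega
      · cases o <;> simp at hcov <;> omega
  · intro x hx
    simp only [ne_eq, hz] at hx
    have hq0 : (0 : ℤ) < q := by omega
    -- the block index
    obtain ⟨j, hj, hg, hj1, hj2⟩ : ∃ j, inI B j ∧ (q : ℤ) ∣ g0 - rk B j ∧
        2 * j + 2 ≤ x ∧ x < 2 * j + 2 + 4 * q := by
      obtain ⟨j0, hj0, hr0⟩ := inI_surj hB g0
      have b1 := Int.emod_nonneg (x - 2 - 2 * j0) (by omega : (4 * (q : ℤ)) ≠ 0)
      have b2 := Int.emod_lt_of_pos (x - 2 - 2 * j0) (by omega : 0 < 4 * (q : ℤ))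
      have b3 := Int.mul_ediv_add_emod (x - 2 - 2 * j0) (4 * (q : ℤ))
      set s := (x - 2 - 2 * j0) / (4 * (q : ℤ))
      set r := (x - 2 - 2 * j0) % (4 * (q : ℤ))
      obtain ⟨p1, p2⟩ := hper j0 s
      refine ⟨j0 + 2 * (q * s), p1.2 hj0, ?_, ?_, ?_⟩
      · rw [p2, hr0]
        exact ⟨-s, by ring⟩
      · have : 2 * (j0 + 2 * (q * s)) + 2 = (4 * q * s) + 2 * j0 + 2 := by ring
        omega
      · have : 2 * (j0 + 2 * (q * s)) + 2 = (4 * q * s) + 2 * j0 + 2 := by ring
        omega
    have hxd : x = 2 * (x / 2) + x % 2 := by omega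
    have hnI1 : ¬ inI B (j + κ) := by rw [sh1]; simpa using hj
    have hjq : inI B (j + 2 * q) ∧ rk B (j + 2 * q) = rk B j + q := by
      have := hper j 1
      simp only [mul_one] at this
      exact ⟨this.1.2 hj, this.2⟩
    have hnI2 : ¬ inI B (j + 2 * q - κ) := by rw [sh2]; simpa using hjq.1
    have hg' : (q : ℤ) ∣ g0 - (rk B j + q) := by
      have := dvd_sub hg (dvd_refl (q : ℤ))
      have e : g0 - rk B j - q = g0 - (rk B j + q) := by ring
      rwa [e] at this
    by_cases h1 : x ≤ 2 * j + 2 * q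
    · refine ⟨_, false, ⟨j, hj, hg, rfl⟩, ?_⟩
      unfold cov
      simp only [Bool.false_eq_true, if_false]
      refine ⟨hj1, by omega, ?_⟩
      intro hx'
      apply hx
      have hx2 : x / 2 = j + κ := by omega
      have hx3 : x % 2 = 1 := by omega
      have : J x = j := by
        simp only [hJ]
        rw [hx2, if_neg hnI1, if_pos hx3]; ring
      rw [this]; exact hg
    · by_cases h2 : x ≤ 2 * j + 4 * q - 1
      · refine ⟨_, true, ⟨j, hj, hg, rfl⟩, ?_⟩
        unfold cov
        simp only [if_true]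
        refine ⟨by omega, by omega, ?_⟩
        intro hx'
        apply hx
        have hx2 : x / 2 = j + 2 * q - κ := by omega
        have hx3 : ¬ x % 2 = 1 := by omega
        have : J x = j + 2 * q := by
          simp only [hJ]
          rw [hx2, if_neg hnI2, if_neg hx3]; ring
        rw [this, hjq.2]; exact hg'
      · exfalso
        apply hx
        have hx2 : x / 2 = j + 2 * q := by omega
        have : J x = j + 2 * q := by
          simp only [hJ]
          rw [hx2, if_pos hjq.1]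
        rw [this, hjq.2]; exact hg'
  · rintro t o t' o' x ⟨j, hj, hg, rfl⟩ ⟨j', hj', hg', rfl⟩ hcov hcov'
    have hd : (q : ℤ) ∣ rk B j - rk B j' := by
      have := dvd_sub hg' hg
      have e : g0 - rk B j' - (g0 - rk B j) = rk B j - rk B j' := by ring
      rwa [e] at this
    have hd' := hinj _ _ hj hj' hd
    have hrange : ∀ j : ℤ, ∀ o : Bool, cov k l o (if o then 2 * j + 2 * q + 1 else 2 * j + 2) x →
        2 * j + 2 ≤ x ∧ x ≤ 2 * j + 4 * q - 1 := by
      intro j o h
      unfold cov at h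
      cases o <;> simp at h <;> omega
    have r1 := hrange j o hcov
    have r2 := hrange j' o' hcov'
    have := eq_zero_of_dvd_of_lt hd' (by omega) (by omega)
    have hjj : j = j' := by omega
    subst hjj
    unfold cov at hcov hcov'
    cases o <;> cases o' <;> simp at hcov hcov' ⊢ <;> omega

end Pool.Agent.H59.Tile
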