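import Pool.Agent.H59.Tile.Combine

/-!
Colourings of the integers by `q` colours with tileable complements of colour classes,
when a common divisor `h` of `k` and `l` is given and `q = (k + l) / h + 1`.
-/

set_option autoImplicit false

namespace Pool.Agent.H59.Tile

theorem eq_zero_of_dvd_of_lt {q n : ℤ} (h : q ∣ n) (h1 : -q < n) (h2 : n < q) : n = 0 :=
  Int.eq_zero_of_abs_lt_dvd h (abs_lt.2 ⟨h1, h2⟩)

theorem covF_mul_iff {h k' l' g y r : ℤ} (hr0 : 0 ≤ r) (hr : r < h) :
    cov (h * k') (h * l') false (g * h) (y * h + r) ↔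
      g ≤ y ∧ (y < g + (k' + l') ∨ (y = g + (k' + l') ∧ r = 0)) ∧ ¬ (y = g + k' ∧ r = 0) := by
  have hle : ∀ a b s : ℤ, 0 ≤ s → s < h → (a * h ≤ b * h + s ↔ a ≤ b) := by
    intro a b s hs0 hs
    constructor
    · intro hab
      by_contra hcon
      have : b + 1 ≤ a := by omega
      have := mul_le_mul_of_nonneg_right this (by omega : 0 ≤ h)
      rw [add_mul, one_mul] at this
      omega
    · intro hab
      have := mul_le_mul_of_nonneg_right hab (by omega : 0 ≤ h)
      omega
  unfold cov
  simp only [Bool.false_eq_true, if_false]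
  have e1 : g * h + (h * k' + h * l') = (g + (k' + l')) * h := by ring
  have e2 : g * h + h * k' = (g + k') * h := by ring
  rw [e1, e2, hle g y r hr0 hr]
  refine and_congr_right (fun hgy => and_congr ?_ (not_congr ?_))
  · constructor
    · intro h1
      by_cases hlt : y < g + (k' + l')
      · exact Or.inl hlt
      · right
        have h2 : g + (k' + l') ≤ y := by omega
        have h3 := mul_le_mul_of_nonneg_right h2 (by omega : 0 ≤ h)
        have h4 : r = 0 := by omega
        have h5 : y * h ≤ (g + (k' + l')) * h + 0 := by omega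
        rw [hle _ _ 0 le_rfl (by omega)] at h5
        omega
    · rintro (h1 | ⟨h1, h2⟩)
      · have h3 : y + 1 ≤ g + (k' + l') := by omega
        have h4 := mul_le_mul_of_nonneg_right h3 (by omega : 0 ≤ h)
        rw [add_mul, one_mul] at h4
        omega
      · rw [h1, h2, add_zero]
  · constructor
    · intro h1
      have h2 : y * h ≤ (g + k') * h + 0 := by omega
      have h3 : (g + k') * h ≤ y * h + r := by omega
      rw [hle _ _ 0 le_rfl (by omega)] at h2
      rw [hle _ _ r hr0 hr] at h3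
      have h4 : y = g + k' := by omega
      refine ⟨h4, ?_⟩
      rw [h4] at h1
      omega
    · rintro ⟨h1, h2⟩
      rw [h1, h2, add_zero]

theorem colX_div (h k' l' : ℤ) (hh : 0 < h) (hk : 0 < k') (hl : 0 < l') (q : ℕ)
    (hq : (q : ℤ) = k' + l' + 1) : ColX (h * k') (h * l') q := by
  refine ⟨fun x => (((if x % h = 0 then x / h - k' else x / h + 1) : ℤ) : ZMod q), fun γ => ?_⟩
  haveI : NeZero q := ⟨by rintro rfl; simp at hq; omega⟩
  obtain ⟨g0, rfl⟩ : ∃ g0 : ℤ, (g0 : ZMod q) = γ := ⟨γ.val, by simp⟩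
  have hz : ∀ a b : ℤ, ((a : ZMod q) = (b : ZMod q)) ↔ (q : ℤ) ∣ b - a := by
    intro a b
    exact ZMod.intCast_eq_intCast_iff_dvd_sub a b q
  have hdec : ∀ x : ℤ, ∃ y r : ℤ, 0 ≤ r ∧ r < h ∧ x = y * h + r ∧ x / h = y ∧ x % h = r := by
    intro x
    refine ⟨x / h, x % h, Int.emod_nonneg _ (by omega), Int.emod_lt_of_pos _ hh, ?_, rfl, rfl⟩
    rw [mul_comm]; exact (Int.mul_ediv_add_emod x h).symm
  refine ⟨fun t o => o = false ∧ ∃ g : ℤ, (q : ℤ) ∣ g0 - g ∧ t = g * h, ?_, ?_, ?_⟩
  · rintro t o x ⟨rfl, g, hg, rfl⟩ hcov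
    obtain ⟨y, r, hr0, hr, hx, e1, e2⟩ := hdec x
    rw [hx, covF_mul_iff hr0 hr] at hcov
    simp only [ne_eq, hz, e1, e2]
    intro hdvd
    have hd : (q : ℤ) ∣ g - (if r = 0 then y - k' else y + 1) := by
      have := dvd_sub hdvd hg
      have e : g0 - (if r = 0 then y - k' else y + 1) - (g0 - g)
        = g - (if r = 0 then y - k' else y + 1) := by ring
      rwa [e] at this
    split_ifs at hd with hr'
    · have := eq_zero_of_dvd_of_lt hd (by omega) (by omega)
      omega
    · have := eq_zero_of_dvd_of_lt hd (by omega) (by omega)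
      omega
  · intro x hx
    obtain ⟨y, r, hr0, hr, hxe, e1, e2⟩ := hdec x
    simp only [ne_eq, hz, e1, e2] at hx
    refine ⟨(y - (y - g0) % q) * h, false, ⟨rfl, _, ?_, rfl⟩, ?_⟩
    · have e : g0 - (y - (y - g0) % q) = -((y - g0) - (y - g0) % q) := by ring
      rw [e, dvd_neg]
      exact Int.dvd_self_sub_emod
    · rw [hxe, covF_mul_iff hr0 hr]
      have hq0 : (0 : ℤ) < q := by omega
      have b1 := Int.emod_nonneg (y - g0) (by omega : (q : ℤ) ≠ 0)
      have b2 := Int.emod_lt_of_pos (y - g0) hq0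
      have hdv : (q : ℤ) ∣ (y - g0) - (y - g0) % q := Int.dvd_self_sub_emod
      set w := (y - g0) % q with hw
      refine ⟨by omega, ?_, ?_⟩
      · by_contra hcon
        apply hx
        have hr' : r ≠ 0 := by omega
        have hw' : w = k' + l' := by omega
        rw [if_neg hr']
        have e : g0 - (y + 1) = -((y - g0) - w) - q := by omega
        rw [e]
        exact dvd_sub (by rw [dvd_neg]; exact hdv) dvd_rfl
      · rintro ⟨h1, h2⟩
        apply hx
        rw [if_pos h2]
        have e : g0 - (y - k') = -((y - g0) - w) := by omega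
        rw [e, dvd_neg]
        exact hdv
  · rintro t o t' o' x ⟨rfl, g, hg, rfl⟩ ⟨rfl, g', hg', rfl⟩ hcov hcov'
    obtain ⟨y, r, hr0, hr, hx, e1, e2⟩ := hdec x
    rw [hx, covF_mul_iff hr0 hr] at hcov hcov'
    have hd : (q : ℤ) ∣ g - g' := by
      have := dvd_sub hg' hg
      have e : g0 - g' - (g0 - g) = g - g' := by ring
      rwa [e] at this
    have := eq_zero_of_dvd_of_lt hd (by omega) (by omega)
    have : g = g' := by omega
    subst this
    simp

end Pool.Agent.H59.Tile
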