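import Pool.Agent.H59.Tile.Combine

/-!
Three tileable sets of integers whose complements partition the integers.
-/

set_option autoImplicit false

namespace Pool.Agent.H59.Tile

theorem covF_iff {k l a q r : ℤ} (hk : 0 < k) (hl : 0 < l) (hr0 : 0 ≤ r) (hr : r < k + l) :
    cov k l false (a * (k + l)) (q * (k + l) + r) ↔ (q = a ∧ r ≠ k) ∨ (q = a + 1 ∧ r = 0) := by
  unfold cov
  constructor
  · rintro ⟨h1, h2, h3⟩
    have hq1 : a < q + 1 := by
      by_contra hcon
      have : q + 1 ≤ a := by omega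
      have := mul_le_mul_of_nonneg_right this (by omega : 0 ≤ k + l)
      rw [add_mul, one_mul] at this
      omega
    have hq2 : q ≤ a + 1 := by
      by_contra hcon
      have : a + 2 ≤ q := by omega
      have := mul_le_mul_of_nonneg_right this (by omega : 0 ≤ k + l)
      rw [add_mul] at this
      omega
    have : q = a ∨ q = a + 1 := by omega
    rcases this with h | h
    · subst h; left; refine ⟨rfl, ?_⟩
      intro hrk; apply h3; simp [hrk]
    · subst h; right; refine ⟨rfl, ?_⟩
      rw [add_mul, one_mul] at h2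
      omega
  · rintro (⟨h1, h2⟩ | ⟨h1, h2⟩)
    · subst h1; simp; omega
    · subst h1; subst h2; simp only [add_mul, one_mul]; simp; omega

theorem covT_iff {k l a q r : ℤ} (hk : 0 < k) (hl : 0 < l) (hr0 : 0 ≤ r) (hr : r < k + l) :
    cov k l true (a * (k + l) + (k + l) + k) (q * (k + l) + r) ↔
      (q = a + 1 ∧ k ≤ r) ∨ (q = a + 2 ∧ 0 < r ∧ r ≤ k) := by
  unfold cov
  constructor
  · rintro ⟨h1, h2, h3⟩
    simp only [if_true] at h3
    have hq1 : a + 1 < q + 1 := by
      by_contra hcon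
      have : q + 1 ≤ a + 1 := by omega
      have := mul_le_mul_of_nonneg_right this (by omega : 0 ≤ k + l)
      rw [add_mul, add_mul, one_mul] at this
      omega
    have hq2 : q ≤ a + 2 := by
      by_contra hcon
      have : a + 3 ≤ q := by omega
      have := mul_le_mul_of_nonneg_right this (by omega : 0 ≤ k + l)
      rw [add_mul] at this
      omega
    have : q = a + 1 ∨ q = a + 2 := by omega
    rcases this with h | h
    · subst h; left; refine ⟨rfl, ?_⟩
      rw [add_mul, one_mul] at h1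
      omega
    · subst h; right; refine ⟨rfl, ?_⟩
      rw [add_mul] at h1 h2 h3
      omega
  · rintro (⟨h1, h2⟩ | ⟨h1, h2, h3⟩)
    · subst h1; simp only [add_mul, one_mul, if_true]; omega
    · subst h1; simp only [add_mul, one_mul, if_true]; omega

theorem lineY (k l : ℤ) (hk : 0 < k) (hl : 0 < l) :
    ∃ τ : ℤ → ZMod 3, ∀ s : ZMod 3, Tileable k l (fun y => τ y ≠ s) := by
  set c : ℤ → ℤ := fun r => if r = 0 then 2 else if r < k then 1 else if r = k then 0 else 2 with hc
  refine ⟨fun y => ((y / (k + l) - c (y % (k + l)) : ℤ) : ZMod 3), fun s => ?_⟩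
  obtain ⟨s0, rfl⟩ : ∃ s0 : ℤ, (s0 : ZMod 3) = s := ⟨s.val, by simp⟩
  have hm : 0 < k + l := by omega
  have hz : ∀ a b : ℤ, ((a : ZMod 3) = (b : ZMod 3)) ↔ (3 : ℤ) ∣ b - a := by
    intro a b
    exact ZMod.intCast_eq_intCast_iff_dvd_sub a b 3
  refine ⟨fun t o => ∃ a : ℤ, (3 : ℤ) ∣ s0 - a ∧
      t = if o then a * (k + l) + (k + l) + k else a * (k + l), ?_, ?_, ?_⟩
  · rintro t o x ⟨a, ha, rfl⟩ hcov
    simp only [ne_eq, hz]
    obtain ⟨q, r, hr0, hr, rfl⟩ : ∃ q r : ℤ, 0 ≤ r ∧ r < k + l ∧ x = q * (k + l) + r :=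
      ⟨x / (k + l), x % (k + l), Int.emod_nonneg _ (by omega), Int.emod_lt_of_pos _ hm, by
        rw [mul_comm]; exact (Int.mul_ediv_add_emod x (k + l)).symm⟩
    have e1 : (q * (k + l) + r) / (k + l) = q := by
      rw [add_comm, Int.add_mul_ediv_right _ _ (by omega), Int.ediv_eq_zero_of_lt hr0 hr]; simp
    have e2 : (q * (k + l) + r) % (k + l) = r := by
      rw [add_comm, Int.add_mul_emod_self_right, Int.emod_eq_of_lt hr0 hr]
    rw [e1, e2]
    simp only [hc]
    cases o
    · simp only [Bool.false_eq_true, if_false] at hcov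
      rw [covF_iff hk hl hr0 hr] at hcov
      split_ifs <;> omega
    · simp only [if_true] at hcov
      rw [covT_iff hk hl hr0 hr] at hcov
      split_ifs <;> omega
  · intro x hx
    simp only [ne_eq, hz] at hx
    obtain ⟨q, r, hr0, hr, rfl⟩ : ∃ q r : ℤ, 0 ≤ r ∧ r < k + l ∧ x = q * (k + l) + r :=
      ⟨x / (k + l), x % (k + l), Int.emod_nonneg _ (by omega), Int.emod_lt_of_pos _ hm, by
        rw [mul_comm]; exact (Int.mul_ediv_add_emod x (k + l)).symm⟩
    have e1 : (q * (k + l) + r) / (k + l) = q := by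
      rw [add_comm, Int.add_mul_ediv_right _ _ (by omega), Int.ediv_eq_zero_of_lt hr0 hr]; simp
    have e2 : (q * (k + l) + r) % (k + l) = r := by
      rw [add_comm, Int.add_mul_emod_self_right, Int.emod_eq_of_lt hr0 hr]
    rw [e1, e2] at hx
    simp only [hc] at hx
    have h3 : (3 : ℤ) ∣ s0 - q ∨ (3 : ℤ) ∣ s0 - (q - 1) ∨ (3 : ℤ) ∣ s0 - (q - 2) := by omega
    rcases h3 with h | h | h
    · refine ⟨_, false, ⟨q, h, rfl⟩, ?_⟩
      simp only [Bool.false_eq_true, if_false]
      rw [covF_iff hk hl hr0 hr]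
      split_ifs at hx <;> omega
    · by_cases hr' : r = 0
      · refine ⟨_, false, ⟨q - 1, h, rfl⟩, ?_⟩
        simp only [Bool.false_eq_true, if_false]
        rw [covF_iff hk hl hr0 hr]
        omega
      · refine ⟨_, true, ⟨q - 1, h, rfl⟩, ?_⟩
        simp only [if_true]
        rw [covT_iff hk hl hr0 hr]
        split_ifs at hx <;> omega
    · refine ⟨_, true, ⟨q - 2, h, rfl⟩, ?_⟩
      simp only [if_true]
      rw [covT_iff hk hl hr0 hr]
      split_ifs at hx <;> omega
  · rintro t o t' o' x ⟨a, ha, rfl⟩ ⟨a', ha', rfl⟩ hcov hcov'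
    obtain ⟨q, r, hr0, hr, rfl⟩ : ∃ q r : ℤ, 0 ≤ r ∧ r < k + l ∧ x = q * (k + l) + r :=
      ⟨x / (k + l), x % (k + l), Int.emod_nonneg _ (by omega), Int.emod_lt_of_pos _ hm, by
        rw [mul_comm]; exact (Int.mul_ediv_add_emod x (k + l)).symm⟩
    cases o <;> cases o' <;> simp only [Bool.false_eq_true, if_false, if_true] at hcov hcov' ⊢
    · rw [covF_iff hk hl hr0 hr] at hcov hcov'
      have : a = a' := by omega
      subst this; simp
    · rw [covF_iff hk hl hr0 hr] at hcov
      rw [covT_iff hk hl hr0 hr] at hcov'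
      omega
    · rw [covT_iff hk hl hr0 hr] at hcov
      rw [covF_iff hk hl hr0 hr] at hcov'
      omega
    · rw [covT_iff hk hl hr0 hr] at hcov hcov'
      have : a = a' := by omega
      subst this; simp

end Pool.Agent.H59.Tile
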