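import Pool.Agent.H59.Tile.Block

/-!
Families of columns that miss each row exactly twice or not at all.
-/

set_option autoImplicit false

namespace Pool.Agent.H59.Tile

open Classical in
/-- Positions of the tiles of `S` with orientation `false` that cover `z`. -/
noncomputable def cnt0 (k l : ℤ) (S : ℤ → Prop) (z : ℤ) : Finset ℤ :=
  (Finset.Icc (z - (k + l)) z).filter (fun u => S u ∧ u ≠ z - k)

theorem mem_cnt0 {k l : ℤ} {S : ℤ → Prop} {z u : ℤ} :
    u ∈ cnt0 k l S z ↔ S u ∧ z - (k + l) ≤ u ∧ u ≤ z ∧ u ≠ z - k := by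
  unfold cnt0
  simp only [Finset.mem_filter, Finset.mem_Icc]
  tauto

theorem colZ_of (k l : ℤ) (q : ℕ) (hq : q ≠ 0) (S0 S1 : ℤ → Prop) (col0 col1 : ℤ → ZMod q)
    (h00 : ∀ t t', S0 t → S0 t' → col0 t = col0 t' → |t - t'| ≤ k + l → t = t')
    (h11 : ∀ t t', S1 t → S1 t' → col1 t = col1 t' → |t - t'| ≤ k + l → t = t')
    (h01 : ∀ t t', S0 t → S1 t' → col0 t = col1 t' → k + l < |t - t'|)
    (hcount : ∀ z, (cnt0 k l S0 z).card + (cnt0 l k S1 z).card = q ∨
      (cnt0 k l S0 z).card + (cnt0 l k S1 z).card + 2 = q) : ColZ k l q := by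
  classical
  haveI : NeZero q := ⟨hq⟩
  let S : ℤ → Bool → Prop := fun t o => if o then S1 t else S0 t
  let col : ℤ → Bool → ZMod q := fun t o => if o then col1 t else col0 t
  have hdisj : ∀ t o t' o', S t o → S t' o' → col t o = col t' o' → |t - t'| ≤ k + l →
      t = t' ∧ o = o' := by
    intro t o t' o' h1 h2 h3 h4
    cases o <;> cases o' <;> simp [S, col] at h1 h2 h3 ⊢
    · exact h00 t t' h1 h2 h3 h4
    · exact absurd h4 (not_le.2 (h01 t t' h1 h2 h3))
    · exact absurd h4 (not_le.2 (by rw [abs_sub_comm]; exact h01 t' t h2 h1 h3.symm))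
    · exact h11 t t' h1 h2 h3 h4
  refine ⟨fun z γ => ∀ t o, S t o → col t o = γ → ¬ cov k l o t z, ?_, ?_⟩
  · intro γ
    refine ⟨fun t o => S t o ∧ col t o = γ, ?_, ?_, ?_⟩
    · intro t o x h1 h2 h3
      exact h3 t o h1.1 h1.2 h2
    · intro x hx
      push Not at hx
      obtain ⟨t, o, h1, h2, h3⟩ := hx
      exact ⟨t, o, ⟨h1, h2⟩, h3⟩
    · intro t o t' o' x h1 h2 h3 h4
      refine hdisj t o t' o' h1.1 h2.1 (h1.2.trans h2.2.symm) ?_
      unfold cov at h3 h4
      rw [abs_le]; constructor <;> omega
  · intro z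
    set I0 := (cnt0 k l S0 z).image col0 with hI0
    set I1 := (cnt0 l k S1 z).image col1 with hI1
    have c0 : I0.card = (cnt0 k l S0 z).card := by
      apply Finset.card_image_of_injOn
      intro u hu v hv huv
      rw [Finset.mem_coe, mem_cnt0] at hu hv
      refine h00 u v hu.1 hv.1 huv ?_
      rw [abs_le]; constructor <;> omega
    have c1 : I1.card = (cnt0 l k S1 z).card := by
      apply Finset.card_image_of_injOn
      intro u hu v hv huv
      rw [Finset.mem_coe, mem_cnt0] at hu hv
      refine h11 u v hu.1 hv.1 huv ?_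
      rw [abs_le]; constructor <;> omega
    have hd : Disjoint I0 I1 := by
      rw [Finset.disjoint_left]
      intro γ h0 h1
      rw [hI0, Finset.mem_image] at h0
      rw [hI1, Finset.mem_image] at h1
      obtain ⟨u, hu, hu'⟩ := h0
      obtain ⟨v, hv, hv'⟩ := h1
      rw [mem_cnt0] at hu hv
      have := h01 u v hu.1 hv.1 (hu'.trans hv'.symm)
      have h2 : |u - v| ≤ k + l := by
        rw [abs_le]; constructor <;> omega
      omega
    have hU : ∀ γ, (∀ t o, S t o → col t o = γ → ¬ cov k l o t z) ↔ γ ∈ (I0 ∪ I1)ᶜ := by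
      intro γ
      rw [Finset.mem_compl, Finset.mem_union, hI0, hI1, Finset.mem_image, Finset.mem_image]
      constructor
      · rintro h (⟨u, hu, hu'⟩ | ⟨u, hu, hu'⟩)
        · rw [mem_cnt0] at hu
          refine h u false (by simpa [S] using hu.1) (by simpa [col] using hu') ?_
          unfold cov
          simp only [Bool.false_eq_true, if_false]
          omega
        · rw [mem_cnt0] at hu
          refine h u true (by simpa [S] using hu.1) (by simpa [col] using hu') ?_
          unfold cov
          simp only [if_true]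
          omega
      · intro h t o hS hc hcov
        apply h
        unfold cov at hcov
        cases o
        · left
          refine ⟨t, ?_, by simpa [col] using hc⟩
          rw [mem_cnt0]
          simp only [Bool.false_eq_true, if_false] at hcov
          refine ⟨by simpa [S] using hS, ?_⟩
          omega
        · right
          refine ⟨t, ?_, by simpa [col] using hc⟩
          rw [mem_cnt0]
          simp only [if_true] at hcov
          refine ⟨by simpa [S] using hS, ?_⟩
          omega
    have hcard : (I0 ∪ I1)ᶜ.card = q - ((cnt0 k l S0 z).card + (cnt0 l k S1 z).card) := by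
      rw [Finset.card_compl, Finset.card_union_of_disjoint hd, c0, c1, ZMod.card]
    rcases hcount z with h | h
    · left
      intro γ
      have h0 : (I0 ∪ I1)ᶜ.card = 0 := by omega
      rw [Finset.card_eq_zero] at h0
      show ¬ (∀ t o, S t o → col t o = γ → ¬ cov k l o t z)
      rw [hU γ, h0]; simp
    · right
      have h0 : (I0 ∪ I1)ᶜ.card = 2 := by omega
      rw [Finset.card_eq_two] at h0
      obtain ⟨a, b, hab, hs⟩ := h0
      refine ⟨a, b, hab, ?_⟩
      intro γ
      show (∀ t o, S t o → col t o = γ → ¬ cov k l o t z) ↔ _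
      rw [hU γ, hs]; simp

end Pool.Agent.H59.Tile
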