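import Pool.Agent.H59.Tile.Columns
import Pool.Agent.H59.Tile.LineOdd
import Pool.Agent.H59.Tile.LineY

/-!
All pairs `(k, l)` of positive integers are good.
-/

set_option autoImplicit false

namespace Pool.Agent.H59.Tile

theorem good_diff (h k' l' : ℤ) (hh : 0 < h) (hk : 0 < k') (hkl : k' < l')
    (hodd : (k' + l') % 2 = 1) : Good (h * k') (h * l') := by
  obtain ⟨q, hq⟩ : ∃ q : ℕ, (q : ℤ) = k' + l' + 1 := ⟨(k' + l' + 1).toNat, by omega⟩
  have hk1 : k' ≤ h * k' := le_mul_of_one_le_left (by omega) (by omega)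
  have hl1 : l' ≤ h * l' := le_mul_of_one_le_left (by omega) (by omega)
  have hlt : h * k' < h * l' := mul_lt_mul_of_pos_left hkl hh
  refine good_of _ _ q (colX_div h k' l' hh hk (by omega) q hq)
    (lineY _ _ (by omega) (by omega)) ?_
  exact colZ_A _ _ ((k' + l' - 1) / 2) (by omega) hlt (by omega) (by omega) q (by omega)

theorem good_diff' (h k' l' : ℤ) (hh : 0 < h) (hk : 0 < k') (hl : 0 < l')
    (hodd : (k' + l') % 2 = 1) : Good (h * k') (h * l') := by
  rcases lt_trichotomy k' l' with hlt | heq | hgt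
  · exact good_diff h k' l' hh hk hlt hodd
  · omega
  · exact (good_diff h l' k' hh hl hgt (by omega)).symm

theorem good_even (A c d : ℤ) (hA : 0 < A) (hc : 0 ≤ c) (hd : 0 ≤ d) :
    Good (2 * A * (2 * c + 1)) (2 * A * (2 * d + 1)) := by
  have e0 : 2 * A * (2 * c + 1) = 2 * (A * (2 * c + 1)) := by ring
  have e1 : 2 * A * (2 * d + 1) = 2 * (A * (2 * d + 1)) := by ring
  have p0 : 0 < A * (2 * c + 1) := mul_pos hA (by omega)
  have p1 : 0 < A * (2 * d + 1) := mul_pos hA (by omega)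
  obtain ⟨q, hq⟩ : ∃ q : ℕ, (q : ℤ) = A * (2 * c + 1) + A * (2 * d + 1) + 1 :=
    ⟨(A * (2 * c + 1) + A * (2 * d + 1) + 1).toNat, by omega⟩
  have hX : ColX (2 * (A * (2 * c + 1))) (2 * (A * (2 * d + 1))) q :=
    colX_div 2 _ _ (by norm_num) p0 p1 q hq
  refine good_of _ _ q (by rw [e0, e1]; exact hX) (lineY _ _ (by omega) (by omega)) ?_
  refine colZ_B _ _ (2 * A) c (c + d + 1) (by omega) (by omega) (by omega) (by omega) rfl
    (by ring) q ?_
  rw [hq]; ring

theorem good_odd (B c d : ℤ) (hB : 0 < B) (hc : 0 ≤ c) (hd : 0 < d) :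
    Good (2 * (B * (2 * c + 1)) - 1) (2 * (B * d) - 1) := by
  have p0 : 0 < B * (2 * c + 1) := mul_pos hB (by omega)
  have p1 : 0 < B * d := mul_pos hB hd
  obtain ⟨q, hq⟩ : ∃ q : ℕ, (q : ℤ) = B * (2 * c + 1) + B * d :=
    ⟨(B * (2 * c + 1) + B * d).toNat, by omega⟩
  refine good_of _ _ q
    (colX_odd _ _ (B * (2 * c + 1)) (B * d) B c (2 * c + 1 + d) hB rfl rfl p0 p1 rfl
      (by ring) q hq) (lineY _ _ (by omega) (by omega)) ?_
  exact colZ_B _ _ 1 (B * (2 * c + 1) - 1) (B * (2 * c + 1) + B * d - 1) (by norm_num)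
    (by omega) (by omega) (by omega) (by ring) (by ring) q (by rw [hq]; ring)

theorem good_all (k l : ℕ) (hk : 1 ≤ k) (hl : 1 ≤ l) : Good (k : ℤ) (l : ℤ) := by
  obtain ⟨a, m, hm, hkm⟩ := Nat.exists_eq_two_pow_mul_odd (n := k) (by omega)
  obtain ⟨b, n, hn, hln⟩ := Nat.exists_eq_two_pow_mul_odd (n := l) (by omega)
  obtain ⟨c, rfl⟩ := hm
  obtain ⟨d, rfl⟩ := hn
  have hpow : ∀ i : ℕ, (0 : ℤ) < 2 ^ i := fun i => by positivity
  rcases Nat.lt_trichotomy a b with hab | hab | hab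
  · obtain ⟨j, rfl⟩ : ∃ j, b = a + 1 + j := ⟨b - (a + 1), by omega⟩
    have e0 : (k : ℤ) = 2 ^ a * (2 * c + 1) := by rw [hkm]; push_cast; ring
    have e1 : (l : ℤ) = 2 ^ a * (2 * (2 ^ j * (2 * d + 1))) := by
      rw [hln]; push_cast; ring
    rw [e0, e1]
    have := hpow j
    have p1 : (0 : ℤ) < 2 ^ j * (2 * d + 1) := mul_pos this (by omega)
    exact good_diff' _ _ _ (hpow a) (by omega) (by omega) (by omega)
  · subst hab
    rcases Nat.eq_zero_or_pos a with ha | ha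
    · subst ha
      -- both odd
      obtain ⟨u, m', hm', hcm⟩ := Nat.exists_eq_two_pow_mul_odd (n := c + 1) (by omega)
      obtain ⟨v, n', hn', hdn⟩ := Nat.exists_eq_two_pow_mul_odd (n := d + 1) (by omega)
      have key : ∀ (c d u v m' n' : ℕ), u ≤ v → Odd m' → Odd n' → c + 1 = 2 ^ u * m' →
          d + 1 = 2 ^ v * n' → Good ((2 * c + 1 : ℕ) : ℤ) ((2 * d + 1 : ℕ) : ℤ) := by
        intro c d u v m' n' huv hm' hn' hcm hdn
        obtain ⟨c', rfl⟩ := hm'
        obtain ⟨j, rfl⟩ : ∃ j, v = u + j := ⟨v - u, by omega⟩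
        have hn'0 : 0 < n' := hn'.pos
        have e0 : ((2 * c + 1 : ℕ) : ℤ) = 2 * (2 ^ u * (2 * (c' : ℤ) + 1)) - 1 := by
          have : ((c + 1 : ℕ) : ℤ) = 2 ^ u * (2 * (c' : ℤ) + 1) := by rw [hcm]; push_cast; ring
          rw [← this]; push_cast; ring
        have e1 : ((2 * d + 1 : ℕ) : ℤ) = 2 * (2 ^ u * (2 ^ j * (n' : ℤ))) - 1 := by
          have : ((d + 1 : ℕ) : ℤ) = 2 ^ u * (2 ^ j * (n' : ℤ)) := by
            rw [hdn]; push_cast; ring
          rw [← this]; push_cast; ring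
        rw [e0, e1]
        exact good_odd _ _ _ (hpow u) (by omega) (mul_pos (hpow j) (by omega))
      have e0 : k = 2 * c + 1 := by rw [hkm]; ring
      have e1 : l = 2 * d + 1 := by rw [hln]; ring
      rw [e0, e1]
      rcases Nat.le_total u v with huv | huv
      · exact key c d u v m' n' huv hm' hn' hcm hdn
      · exact (key d c v u n' m' huv hn' hm' hdn hcm).symm
    · obtain ⟨i, rfl⟩ : ∃ i, a = i + 1 := ⟨a - 1, by omega⟩
      have e0 : (k : ℤ) = 2 * 2 ^ i * (2 * c + 1) := by rw [hkm]; push_cast; ring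
      have e1 : (l : ℤ) = 2 * 2 ^ i * (2 * d + 1) := by rw [hln]; push_cast; ring
      rw [e0, e1]
      exact good_even _ _ _ (hpow i) (by omega) (by omega)
  · obtain ⟨j, rfl⟩ : ∃ j, a = b + 1 + j := ⟨a - (b + 1), by omega⟩
    have e0 : (k : ℤ) = 2 ^ b * (2 * (2 ^ j * (2 * c + 1))) := by
      rw [hkm]; push_cast; ring
    have e1 : (l : ℤ) = 2 ^ b * (2 * d + 1) := by rw [hln]; push_cast; ring
    rw [e0, e1]
    have := hpow j
    have p1 : (0 : ℤ) < 2 ^ j * (2 * c + 1) := mul_pos this (by omega)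
    exact good_diff' _ _ _ (hpow b) (by omega) (by omega) (by omega)

end Pool.Agent.H59.Tile
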